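import Pool.Agent.H85.GMC.Bin

/-!
P1C: the projective line is a normal projective curve.
-/

open AlgebraicGeometry CategoryTheory FCB MvPolynomial

namespace GMC.P1x

open Bin

theorem PI_id (x : PS 1) : PI ((𝟙 (PS 1) : PS 1 ⟶ PS 1) x) = PI x := rfl

theorem PI_gen (hP : S_PSB) : PI (genericPoint (PS 1)) = ⊥ := by
  obtain ⟨-, -, -, h4, h5, -⟩ := hP 1
  obtain ⟨x, hx⟩ := h4 ⊥ Ideal.isPrime_bot (by
    intro p hp d
    rw [Ideal.mem_bot] at hp
    rw [hp]; simp) ⟨0, by rw [Ideal.mem_bot]; exact X_ne_zero 0⟩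
  have h := (h5 (genericPoint (PS 1)) x).mp (genericPoint_specializes x)
  rw [hx] at h
  exact le_bot_iff.mp h

/-- a homogeneous element of an ideal without a linear form is zero -/
theorem exists_lin (hP : S_PSB) (x : PS 1) (d : ℕ) (A : MvPolynomial (Fin 2) ℂ)
    (hA : A ∈ grd 1 d) (hA0 : A ≠ 0) (hx : A ∈ PI x) : ∃ v : Fin 2 → ℂ, v ≠ 0 ∧ lin v ∈ PI x := by
  have hp : (PI x).IsPrime := (hP 1).1 x
  induction d generalizing A with
  | zero =>
    exfalso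
    have h1 : A.IsHomogeneous 0 := hA
    have h2 : A = C (coeff 0 A) := (totalDegree_eq_zero_iff_eq_C).mp
      (Nat.le_zero.mp h1.totalDegree_le)
    have h3 : coeff 0 A ≠ 0 := by
      intro h
      rw [h, map_zero] at h2
      exact hA0 h2
    apply hp.ne_top
    rw [Ideal.eq_top_iff_one]
    have h4 : (1 : MvPolynomial (Fin 2) ℂ) = C (coeff 0 A)⁻¹ * A := by
      conv_rhs => rw [h2]
      rw [coeff_C, if_pos rfl, ← map_mul, inv_mul_cancel₀ h3, map_one]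
    rw [h4]
    exact Ideal.mul_mem_left _ _ hx
  | succ d ih =>
    obtain ⟨v, hv, hz⟩ := exists_zero d A hA
    obtain ⟨B, hB, hAB⟩ := exists_quot d (lin v) A (lin_mem v) hA
      (dvd_of_eval v hv (d + 1) A hA hz)
    have hB0 : B ≠ 0 := by
      rintro rfl
      exact hA0 (by rw [hAB, mul_zero])
    rw [hAB] at hx
    rcases hp.mem_or_mem hx with h | h
    · exact ⟨v, hv, h⟩
    · exact ih B hB hB0 h

theorem bot_or (hP : S_PSB) (x : PS 1) : PI x = ⊥ ∨ ∃ v : Fin 2 → ℂ, v ≠ 0 ∧ lin v ∈ PI x := by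
  by_cases h : PI x = ⊥
  · exact Or.inl h
  right
  obtain ⟨A, hA, hA0⟩ := Submodule.exists_mem_ne_zero_of_ne_bot h
  have h1 : ∃ d, homogeneousComponent d A ≠ 0 := by
    by_contra hcon
    push Not at hcon
    apply hA0
    rw [← sum_homogeneousComponent A]
    exact Finset.sum_eq_zero fun i _ => hcon i
  obtain ⟨d, hd⟩ := h1
  exact exists_lin hP x d _ (homogeneousComponent_mem d A) hd (((hP 1).2.1 x A).mp hA d)

theorem lin_dvd (hP : S_PSB) (x : PS 1) (v : Fin 2 → ℂ) (hv : v ≠ 0) (hx : lin v ∈ PI x) (d : ℕ)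
    (A : MvPolynomial (Fin 2) ℂ) (hA : A ∈ grd 1 d) (hAx : A ∈ PI x) : lin v ∣ A := by
  have hp : (PI x).IsPrime := (hP 1).1 x
  apply dvd_of_eval v hv d A hA
  by_contra h0
  obtain ⟨i, hi⟩ := exists_ne v hv
  have h1 : C (v i) ^ d * A - C (eval v A) * X i ^ d ∈ PI x :=
    Ideal.mem_of_dvd _ (mod_form v i d A hA) hx
  have h2 : C (eval v A) * X i ^ d ∈ PI x := by
    have := Ideal.sub_mem _ (Ideal.mul_mem_left _ (C (v i) ^ d) hAx) h1
    simpa using this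
  have h3 : (X i : MvPolynomial (Fin 2) ℂ) ∈ PI x := by
    apply hp.mem_of_pow_mem d
    have := Ideal.mul_mem_left _ (C (eval v A)⁻¹) h2
    rwa [← mul_assoc, ← map_mul, inv_mul_cancel₀ h0, map_one, one_mul] at this
  obtain ⟨j, hj⟩ := (hP 1).2.2.1 x
  apply hj
  have h4 : (C (v i) * X j - C (v j) * X i : MvPolynomial (Fin 2) ℂ) ∈ PI x :=
    Ideal.mem_of_dvd _ (mod_lin v j i) hx
  have h5 : (C (v i) * X j : MvPolynomial (Fin 2) ℂ) ∈ PI x := by
    have := Ideal.add_mem _ h4 (Ideal.mul_mem_left _ (C (v j)) h3)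
    simpa using this
  have := Ideal.mul_mem_left _ (C (v i)⁻¹) h5
  rwa [← mul_assoc, ← map_mul, inv_mul_cancel₀ hi, map_one, one_mul] at this

theorem eq_of_le (hP : S_PSB) (x y : PS 1) (h : PI y ≤ PI x) (v : Fin 2 → ℂ) (hv : v ≠ 0)
    (hy : lin v ∈ PI y) : x = y := by
  apply (hP 1).2.2.2.2.2 x y
  apply le_antisymm _ h
  intro p hp
  rw [(hP 1).2.1 y p]
  intro d
  have h1 := ((hP 1).2.1 x p).mp hp d
  exact Ideal.mem_of_dvd _
    (lin_dvd hP x v hv (h hy) d _ (homogeneousComponent_mem d p) h1) hy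

theorem coheight_le (hP : S_PSB) (x : PS 1) : Order.coheight x ≤ 1 := by
  rw [show (1 : ℕ∞) = ((1 : ℕ) : ℕ∞) from rfl, Order.coheight_le_coe_iff]
  intro y hy
  have hyx : PI y ≤ PI x := by
    apply ((hP 1).2.2.2.2.1 y x).mp
    exact Scheme.le_iff_specializes.mp hy.le
  have hb : PI y = ⊥ := by
    rcases bot_or hP y with h | ⟨v, hv, h⟩
    · exact h
    · exact absurd (eq_of_le hP x y hyx v hv h) hy.ne
  have h0 : Order.coheight y = 0 := by
    rw [Order.coheight_eq_zero]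
    intro z hz
    have hzy : PI z ≤ PI y := by
      apply ((hP 1).2.2.2.2.1 z y).mp
      exact Scheme.le_iff_specializes.mp hz
    have : z = y := by
      apply (hP 1).2.2.2.2.2 z y
      apply le_antisymm hzy
      rw [hb]; exact bot_le
    rw [this]
  rw [h0]
  exact Nat.cast_lt.mpr one_pos


/-- existence of the ratio of two forms -/
theorem ratio (hA : S_RATA) (hP : S_PSB) (d : ℕ) (A B : MvPolynomial (Fin 2) ℂ)
    (h1 : A ∈ grd 1 d) (h2 : B ∈ grd 1 d) (h3 : B ≠ 0) : ∃ f, IsRatio (𝟙 (PS 1)) A B f := by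
  apply (hA (PS 1) 1 (𝟙 _)).1 d A B h1 h2
  rw [PI_id, PI_gen hP, Ideal.mem_bot]
  exact h3

theorem ratio_eq (hA : S_RATA) (hP : S_PSB) {A B A' B' : MvPolynomial (Fin 2) ℂ}
    {f f' : (PS 1).functionField} (h : IsRatio (𝟙 (PS 1)) A B f)
    (h' : IsRatio (𝟙 (PS 1)) A' B' f') : f = f' ↔ A * B' = A' * B := by
  rw [(hA (PS 1) 1 (𝟙 _)).2.1 A B A' B' f f' h h', PI_id, PI_gen hP, Ideal.mem_bot, sub_eq_zero]

theorem ratio_zero (hA : S_RATA) (hP : S_PSB) {A B : MvPolynomial (Fin 2) ℂ}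
    {f : (PS 1).functionField} (h : IsRatio (𝟙 (PS 1)) A B f) : f = 0 ↔ A = 0 := by
  rw [(hA (PS 1) 1 (𝟙 _)).2.2 A B f h, PI_id, PI_gen hP, Ideal.mem_bot]

theorem ratio_mul (hB : S_RATB) {A B A' B' : MvPolynomial (Fin 2) ℂ}
    {f f' : (PS 1).functionField} (h : IsRatio (𝟙 (PS 1)) A B f)
    (h' : IsRatio (𝟙 (PS 1)) A' B' f') : IsRatio (𝟙 (PS 1)) (A * A') (B * B') (f * f') :=
  ((hB (PS 1) 1 (𝟙 _)).1 A B A' B' f f' h h').1

theorem ratio_one (hP : S_PSB) (hB : S_RATB) (d : ℕ) (B : MvPolynomial (Fin 2) ℂ)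
    (h1 : B ∈ grd 1 d) (h2 : B ≠ 0) : IsRatio (𝟙 (PS 1)) B B 1 := by
  apply (hB (PS 1) 1 (𝟙 _)).2.1 d B h1
  rw [PI_id, PI_gen hP, Ideal.mem_bot]
  exact h2

theorem ratio_inv (hP : S_PSB) (hA : S_RATA) (hB : S_RATB) (d : ℕ)
    {A B : MvPolynomial (Fin 2) ℂ} {f : (PS 1).functionField} (hAd : A ∈ grd 1 d)
    (hBd : B ∈ grd 1 d) (h : IsRatio (𝟙 (PS 1)) A B f) (h0 : A ≠ 0) (hB0 : B ≠ 0) :
    IsRatio (𝟙 (PS 1)) B A f⁻¹ := by
  obtain ⟨g, hg⟩ := ratio hA hP d B A hBd hAd h0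
  have h1 := ratio_mul hB h hg
  have h2 : f * g = 1 := by
    rw [ratio_eq hA hP h1 (ratio_one hP hB d B hBd hB0)]
    ring
  have hf : f ≠ 0 := by
    rintro rfl
    rw [zero_mul] at h2
    exact zero_ne_one h2
  rwa [← eq_inv_of_mul_eq_one_right h2]

theorem reg (hL : S_RLOC) {A B : MvPolynomial (Fin 2) ℂ}
    {f : (PS 1).functionField} (h : IsRatio (𝟙 (PS 1)) A B f) (x : PS 1) (hB : B ∉ PI x) :
    RegAt x f ∧ (UnitAt x f ↔ A ∉ PI x) :=
  hL (PS 1) 1 (𝟙 _) x A B f h hB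

theorem reg_or (hP : S_PSB) (hA : S_RATA) (hB : S_RATB) (hL : S_RLOC) (x : PS 1) (d : ℕ)
    (A B : MvPolynomial (Fin 2) ℂ) (hAd : A ∈ grd 1 d) (hBd : B ∈ grd 1 d) (hA0 : A ≠ 0)
    (hB0 : B ≠ 0) (f : (PS 1).functionField) (h : IsRatio (𝟙 (PS 1)) A B f) :
    RegAt x f ∨ RegAt x f⁻¹ := by
  by_cases h1 : B ∈ PI x
  swap
  · exact Or.inl (reg hL h x h1).1
  by_cases h2 : A ∈ PI x
  swap
  · exact Or.inr (reg hL (ratio_inv hP hA hB d hAd hBd h hA0 hB0) x h2).1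
  induction d generalizing A B with
  | zero =>
    exfalso
    obtain ⟨v, hv, hl⟩ := exists_lin hP x 0 A hAd hA0 h2
    obtain ⟨Q, hQ⟩ := lin_dvd hP x v hv hl 0 A hAd h2
    have h3 : A.IsHomogeneous 0 := hAd
    have h4 : A.totalDegree = 0 := Nat.le_zero.mp h3.totalDegree_le
    have h5 : (lin v).IsHomogeneous 1 := lin_mem v
    have hQ0 : Q ≠ 0 := by
      rintro rfl
      exact hA0 (by rw [hQ, mul_zero])
    have h6 : A.totalDegree = (lin v).totalDegree + Q.totalDegree := by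
      rw [hQ, totalDegree_mul_of_isDomain (lin_ne v hv) hQ0]
    rw [h4, h5.totalDegree (lin_ne v hv)] at h6
    omega
  | succ d ih =>
    obtain ⟨v, hv, hl⟩ := exists_lin hP x (d + 1) A hAd hA0 h2
    obtain ⟨A', hA', eA⟩ := exists_quot d (lin v) A (lin_mem v) hAd
      (lin_dvd hP x v hv hl (d + 1) A hAd h2)
    obtain ⟨B', hB', eB⟩ := exists_quot d (lin v) B (lin_mem v) hBd
      (lin_dvd hP x v hv hl (d + 1) B hBd h1)
    have hA0' : A' ≠ 0 := by
      rintro rfl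
      exact hA0 (by rw [eA, mul_zero])
    have hB0' : B' ≠ 0 := by
      rintro rfl
      exact hB0 (by rw [eB, mul_zero])
    obtain ⟨g, hg⟩ := ratio hA hP d A' B' hA' hB' hB0'
    have e : f = g := by
      rw [ratio_eq hA hP h hg, eA, eB]
      ring
    have hf' : IsRatio (𝟙 (PS 1)) A' B' f := e ▸ hg
    by_cases h1' : B' ∈ PI x
    swap
    · exact Or.inl (reg hL hf' x h1').1
    by_cases h2' : A' ∈ PI x
    swap
    · exact Or.inr (reg hL (ratio_inv hP hA hB d hA' hB' hf' hA0' hB0') x h2').1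
    exact ih A' B' hA' hB' hA0' hB0' hf' h1' h2'

theorem reg_gen (T : Scheme.{0}) [IsIntegral T] (f : T.functionField) :
    RegAt (genericPoint T) f := by
  refine ⟨f, ?_⟩
  have h : T.presheaf.stalkSpecializes (specializes_refl (genericPoint T)) = 𝟙 _ :=
    T.presheaf.stalkSpecializes_refl _
  exact congrArg (fun k => k.hom f) h

/-- every rational function is a ratio of forms -/
theorem exists_ratio (hG : S_RGEN) (f : (PS 1).functionField) :
    ∃ (d : ℕ) (A B : MvPolynomial (Fin 2) ℂ), A ∈ grd 1 d ∧ B ∈ grd 1 d ∧ B ≠ 0 ∧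
      IsRatio (𝟙 (PS 1)) A B f := by
  obtain ⟨d, A, B, h1, h2, h3, h4⟩ := hG P1 (genericPoint (PS 1)) f (reg_gen (PS 1) f)
  refine ⟨d, A, B, h1, h2, ?_, h4⟩
  rintro rfl
  exact h3 (Ideal.zero_mem _)

theorem normal (hP : S_PSB) (hA : S_RATA) (hB : S_RATB) (hL : S_RLOC) (hG : S_RGEN)
    (x : PS 1) : IsIntegrallyClosed ((PS 1).presheaf.stalk x) := by
  have hv : ValuationRing ((PS 1).presheaf.stalk x) := by
    rw [ValuationRing.iff_isInteger_or_isInteger _ (PS 1).functionField]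
    intro f
    by_cases hf : f = 0
    · left
      rw [hf]
      exact ⟨0, map_zero _⟩
    · obtain ⟨d, A, B, h1, h2, h3, h4⟩ := exists_ratio hG f
      have hA0 : A ≠ 0 := fun h => hf ((ratio_zero hA hP h4).mpr h)
      exact reg_or hP hA hB hL x d A B h1 h2 hA0 h3 f h4
  infer_instance

end GMC.P1x

namespace GMC

theorem p1c_thm (hP : S_PSB) (hA : S_RATA) (hB : S_RATB) (hL : S_RLOC) (hG : S_RGEN) :
    S_P1C :=
  ⟨fun x => P1x.normal hP hA hB hL hG x, fun x => P1x.coheight_le hP x⟩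

end GMC
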