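import Pool.Agent.H85.GMC.P1C

/-!
P1D, P1E: divisors on the projective line.
-/

open AlgebraicGeometry CategoryTheory FCB MvPolynomial

namespace GMC.P1x

open Bin

theorem eq_of_lin (hP : S_PSB) (x y : PS 1) (v : Fin 2 → ℂ) (hv : v ≠ 0) (hx : lin v ∈ PI x)
    (hy : lin v ∈ PI y) : x = y := by
  apply eq_of_le hP x y _ v hv hy
  intro p hp
  rw [(hP 1).2.1 x p]
  intro d
  have h1 := ((hP 1).2.1 y p).mp hp d
  exact Ideal.mem_of_dvd _
    (lin_dvd hP y v hv hy d _ (homogeneousComponent_mem d p) h1) hx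

theorem coheight_one (hP : S_PSB) (x : PS 1) (v : Fin 2 → ℂ) (hv : v ≠ 0) (hx : lin v ∈ PI x) :
    Order.coheight x = 1 := by
  apply le_antisymm (coheight_le hP x)
  rw [Order.one_le_iff_ne_zero]
  intro h0
  rw [Order.coheight_eq_zero] at h0
  have h1 : x ≤ genericPoint (PS 1) := Scheme.le_iff_specializes.mpr (genericPoint_specializes x)
  have h2 : PI x ≤ PI (genericPoint (PS 1)) :=
    ((hP 1).2.2.2.2.1 _ _).mp (Scheme.le_iff_specializes.mp (h0 h1))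
  have h3 := h2 hx
  rw [PI_gen hP, Ideal.mem_bot] at h3
  exact lin_ne v hv h3

theorem no_deg_zero (v : Fin 2 → ℂ) (hv : v ≠ 0) (A : MvPolynomial (Fin 2) ℂ)
    (hA : A ∈ grd 1 0) (hA0 : A ≠ 0) (h : lin v ∣ A) : False := by
  obtain ⟨Q, hQ⟩ := h
  have h3 : A.IsHomogeneous 0 := hA
  have h4 : A.totalDegree = 0 := Nat.le_zero.mp h3.totalDegree_le
  have h5 : (lin v).IsHomogeneous 1 := lin_mem v
  have hQ0 : Q ≠ 0 := by
    rintro rfl
    exact hA0 (by rw [hQ, mul_zero])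
  have h6 : A.totalDegree = (lin v).totalDegree + Q.totalDegree := by
    rw [hQ, totalDegree_mul_of_isDomain (lin_ne v hv) hQ0]
  rw [h4, h5.totalDegree (lin_ne v hv)] at h6
  omega

theorem prime_lin (hP : S_PSB) (p : PrimeDiv (PS 1)) : ∃ v : Fin 2 → ℂ, v ≠ 0 ∧ lin v ∈ PI p.1 := by
  rcases bot_or hP p.1 with h | h
  · exfalso
    have h0 : Order.coheight p.1 = 0 := by
      rw [Order.coheight_eq_zero]
      intro z hz
      have hzy : PI z ≤ PI p.1 := by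
        apply ((hP 1).2.2.2.2.1 z p.1).mp
        exact Scheme.le_iff_specializes.mp hz
      have : z = p.1 := by
        apply (hP 1).2.2.2.2.2 z p.1
        apply le_antisymm hzy
        rw [h]; exact bot_le
      rw [this]
    rw [p.2] at h0
    exact one_ne_zero h0
  · exact h

section

variable (hP : S_PSB) (hA : S_RATA) (hB : S_RATB) (hL : S_RLOC) (hG : S_RGEN) (hO : S_ORDV)

include hP hA hB hL hG hO

theorem ord_unit (p : PrimeDiv (PS 1)) {A B : MvPolynomial (Fin 2) ℂ}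
    {f : (PS 1).functionField} (h : IsRatio (𝟙 (PS 1)) A B f) (hBp : B ∉ PI p.1)
    (hAp : A ∉ PI p.1) : Scheme.ord f p.1 = 0 := by
  have hf : f ≠ 0 := by
    intro h0
    rw [ratio_zero hA hP h] at h0
    exact hAp (h0 ▸ Ideal.zero_mem _)
  exact ((hO (PS 1) p (normal hP hA hB hL hG p.1)).2.1 f hf).mp ((reg hL h p.1 hBp).2.mpr hAp)

theorem indep (p : PrimeDiv (PS 1)) {d : ℕ} {A B B' : MvPolynomial (Fin 2) ℂ}
    {f f' : (PS 1).functionField} (hBd : B ∈ grd 1 d) (hBd' : B' ∈ grd 1 d) (hA0 : A ≠ 0)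
    (h : IsRatio (𝟙 (PS 1)) A B f) (h' : IsRatio (𝟙 (PS 1)) A B' f') (hBp : B ∉ PI p.1)
    (hBp' : B' ∉ PI p.1) : Scheme.ord f p.1 = Scheme.ord f' p.1 := by
  have hB0 : B ≠ 0 := fun h => hBp (h ▸ Ideal.zero_mem _)
  have hB0' : B' ≠ 0 := fun h => hBp' (h ▸ Ideal.zero_mem _)
  obtain ⟨g, hg⟩ := ratio hA hP d B B' hBd hBd' hB0'
  have e : f' = f * g := by
    rw [ratio_eq hA hP h' (ratio_mul hB h hg)]
    ring
  have hf : f ≠ 0 := fun h0 => hA0 ((ratio_zero hA hP h).mp h0)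
  have hg0 : g ≠ 0 := fun h0 => hB0 ((ratio_zero hA hP hg).mp h0)
  rw [e, Scheme.ord_mul hf hg0, ord_unit hP hA hB hL hG hO p hg hBp' hBp, add_zero]

omit hP hA hB hL hG hO in
/-- the degree of a ratio -/
theorem ratio_deg {d : ℕ} {A B : MvPolynomial (Fin 2) ℂ} {f : (PS 1).functionField}
    (hAd : A ∈ grd 1 d) (hA0 : A ≠ 0) (h : IsRatio (𝟙 (PS 1)) A B f) : B ∈ grd 1 d := by
  obtain ⟨e, h1, h2, h3, h4⟩ := h
  have h5 : A.IsHomogeneous e := h1
  have h6 : A.IsHomogeneous d := hAd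
  rw [h6.inj_right h5 hA0]
  exact h2

theorem ord_lin (p : PrimeDiv (PS 1)) (v : Fin 2 → ℂ) (hv : v ≠ 0) (hx : lin v ∈ PI p.1)
    {B : MvPolynomial (Fin 2) ℂ} {f : (PS 1).functionField}
    (h : IsRatio (𝟙 (PS 1)) (lin v) B f) (hBp : B ∉ PI p.1) : Scheme.ord f p.1 = 1 := by
  have hn := normal hP hA hB hL hG p.1
  obtain ⟨o1, o2, o3⟩ := hO (PS 1) p hn
  obtain ⟨g, hg0, hg1⟩ := o3
  have hf0 : f ≠ 0 := fun h0 => lin_ne v hv ((ratio_zero hA hP h).mp h0)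
  have hfr := reg hL h p.1 hBp
  have hf1 : 0 ≤ Scheme.ord f p.1 := (o1 f hf0).mp hfr.1
  have hf2 : Scheme.ord f p.1 ≠ 0 := by
    intro h0
    exact hfr.2.mp ((o2 f hf0).mpr h0) hx
  have hgr : RegAt p.1 g := (o1 g hg0).mpr (by rw [hg1]; exact zero_le_one)
  obtain ⟨d, A0, B0, a1, a2, a3, a4⟩ := hG P1 p.1 g hgr
  have a3' : B0 ∉ PI p.1 := a3
  have a4' : IsRatio (𝟙 (PS 1)) A0 B0 g := a4
  have a1' : A0 ∈ grd 1 d := a1
  have a2' : B0 ∈ grd 1 d := a2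
  have hA00 : A0 ≠ 0 := fun h0 => hg0 ((ratio_zero hA hP a4').mpr h0)
  have hA0p : A0 ∈ PI p.1 := by
    by_contra h0
    have := ord_unit hP hA hB hL hG hO p a4' a3' h0
    rw [hg1] at this
    exact one_ne_zero this
  have hdvd := lin_dvd hP p.1 v hv hx d A0 a1' hA0p
  have hB1 : B ∈ grd 1 1 := ratio_deg (lin_mem v) (lin_ne v hv) h
  obtain ⟨d', rfl⟩ : ∃ d', d = d' + 1 := by
    cases d with
    | zero =>
      exact (no_deg_zero v hv A0 a1' hA00 hdvd).elim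
    | succ d => exact ⟨d, rfl⟩
  obtain ⟨A1, hA1, e1⟩ := exists_quot d' (lin v) A0 (lin_mem v) a1' hdvd
  -- g = f * (A1 * B / B0)
  have hB00 : B0 ≠ 0 := fun h => a3' (h ▸ Ideal.zero_mem _)
  have hA1B : A1 * B ∈ grd 1 (d' + 1) := SetLike.mul_mem_graded hA1 hB1
  obtain ⟨k, hk⟩ := ratio hA hP (d' + 1) (A1 * B) B0 hA1B a2' hB00
  have e : g = f * k := by
    rw [ratio_eq hA hP a4' (ratio_mul hB h hk), e1]
    exact (mul_assoc _ _ _).symm.trans (congrArg (· * B0) (mul_assoc (lin v) A1 B))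
  have hk0 : k ≠ 0 := by
    rintro rfl
    rw [mul_zero] at e
    exact hg0 e
  have hk1 : 0 ≤ Scheme.ord k p.1 := (o1 k hk0).mp (reg hL hk p.1 a3').1
  rw [e, Scheme.ord_mul hf0 hk0] at hg1
  omega

/-- `E` is the divisor of the form `A`. -/
def IsDiv (A : MvPolynomial (Fin 2) ℂ) (E : WeilDiv (PS 1)) : Prop :=
  ∀ (p : PrimeDiv (PS 1)) (B : MvPolynomial (Fin 2) ℂ) (f : (PS 1).functionField),
    B ∉ PI p.1 → IsRatio (𝟙 (PS 1)) A B f → E p = Scheme.ord f p.1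

omit hP hA hB hL hG hO in
theorem deg_add (D E : WeilDiv (PS 1)) : deg (D + E) = deg D + deg E := by
  unfold deg
  rw [Finsupp.sum_add_index']
  · intro a; rfl
  · intro a b c; rfl

omit hP hA hB hL hG hO in
theorem deg_single (p : PrimeDiv (PS 1)) (n : ℤ) :
    deg (Finsupp.single p n : WeilDiv (PS 1)) = n := by
  unfold deg
  rw [Finsupp.sum_single_index rfl]

theorem div_lin (hI : S_IPT) (v : Fin 2 → ℂ) (hv : v ≠ 0) :
    ∃ E : WeilDiv (PS 1), deg E = 1 ∧ IsDiv (lin v) E := by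
  obtain ⟨x, hx⟩ := (hI 1).1 v hv
  have hlx : lin v ∈ PI x := (hx 1 (lin v) (lin_mem v)).mpr (eval_lin v)
  let q : PrimeDiv (PS 1) := ⟨x, coheight_one hP x v hv hlx⟩
  refine ⟨Finsupp.single q 1, deg_single q 1, ?_⟩
  intro p B f hBp hf
  by_cases hpq : p = q
  · rw [hpq, Finsupp.single_eq_same]
    have hBq : B ∉ PI q.1 := hpq ▸ hBp
    exact (ord_lin hP hA hB hL hG hO q v hv hlx hf hBq).symm
  · rw [Finsupp.single_eq_of_ne hpq]
    have hl : lin v ∉ PI p.1 := by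
      intro h
      exact hpq (Subtype.ext (eq_of_lin hP p.1 x v hv h hlx))
    exact (ord_unit hP hA hB hL hG hO p hf hBp hl).symm

omit hP hA hB hL hG hO in
theorem X_pow_mem (i : Fin 2) (d : ℕ) : (X i ^ d : MvPolynomial (Fin 2) ℂ) ∈ grd 1 d := by
  have h := (isHomogeneous_X ℂ i).pow d
  rw [one_mul] at h
  exact h

theorem div_mul {d : ℕ} (L A : MvPolynomial (Fin 2) ℂ) (hLm : L ∈ grd 1 1) (hAm : A ∈ grd 1 d)
    (hL0 : L ≠ 0) (hA0 : A ≠ 0) (D E : WeilDiv (PS 1)) (hD : IsDiv L D) (hE : IsDiv A E) :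
    IsDiv (L * A) (D + E) := by
  intro p B f hBp hf
  have hp : (PI p.1).IsPrime := (hP 1).1 p.1
  obtain ⟨i, hi⟩ := (hP 1).2.2.1 p.1
  obtain ⟨f1, h1⟩ := ratio hA hP 1 L (X i) hLm (isHomogeneous_X ℂ i) (X_ne_zero i)
  obtain ⟨f2, h2⟩ := ratio hA hP d A (X i ^ d) hAm (X_pow_mem i d) (pow_ne_zero _ (X_ne_zero i))
  have hi2 : (X i ^ d : MvPolynomial (Fin 2) ℂ) ∉ PI p.1 := fun h => hi (hp.mem_of_pow_mem d h)
  have hi3 : (X i * X i ^ d : MvPolynomial (Fin 2) ℂ) ∉ PI p.1 := by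
    intro h
    rcases hp.mem_or_mem h with h | h
    · exact hi h
    · exact hi2 h
  have hLA : L * A ∈ grd 1 (1 + d) := SetLike.mul_mem_graded hLm hAm
  have hLA0 : L * A ≠ 0 := mul_ne_zero hL0 hA0
  have hXX : (X i * X i ^ d : MvPolynomial (Fin 2) ℂ) ∈ grd 1 (1 + d) :=
    SetLike.mul_mem_graded (isHomogeneous_X ℂ i) (X_pow_mem i d)
  have h3 := ratio_mul hB h1 h2
  have hf1 : f1 ≠ 0 := fun h0 => hL0 ((ratio_zero hA hP h1).mp h0)
  have hf2 : f2 ≠ 0 := fun h0 => hA0 ((ratio_zero hA hP h2).mp h0)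
  rw [indep hP hA hB hL hG hO p (ratio_deg hLA hLA0 hf) hXX hLA0 hf h3 hBp hi3,
    Scheme.ord_mul hf1 hf2, ← hD p _ _ hi h1, ← hE p _ _ hi2 h2]
  rfl

end

end GMC.P1x

namespace GMC

open Bin P1x

theorem p1d_thm (hP : S_PSB) (hI : S_IPT) (hA : S_RATA) (hB : S_RATB) (hL : S_RLOC)
    (hG : S_RGEN) (hO : S_ORDV) : S_P1D := by
  intro d A hAd hA0
  induction d generalizing A with
  | zero =>
    refine ⟨0, by simp [deg], ?_⟩
    intro p B f hBp hf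
    have hAp : A ∉ PI p.1 := by
      intro h
      obtain ⟨v, hv, hl⟩ := exists_lin hP p.1 0 A hAd hA0 h
      exact no_deg_zero v hv A hAd hA0 (lin_dvd hP p.1 v hv hl 0 A hAd h)
    rw [ord_unit hP hA hB hL hG hO p hf hBp hAp]
    rfl
  | succ d ih =>
    obtain ⟨v, hv, hz⟩ := exists_zero d A hAd
    obtain ⟨A', hA', e⟩ := exists_quot d (lin v) A (lin_mem v) hAd
      (dvd_of_eval v hv (d + 1) A hAd hz)
    have hA0' : A' ≠ 0 := by
      rintro rfl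
      exact hA0 (by rw [e, mul_zero])
    obtain ⟨E, hE1, hE2⟩ := ih A' hA' hA0'
    obtain ⟨D, hD1, hD2⟩ := div_lin hP hA hB hL hG hO hI v hv
    refine ⟨D + E, ?_, ?_⟩
    · rw [deg_add, hD1, hE1]
      push_cast
      ring
    · rw [e]
      exact div_mul hP hA hB hL hG hO (lin v) A' (lin_mem v) hA' (lin_ne v hv) hA0' D E hD2 hE2

theorem p1e_thm (hP : S_PSB) (hA : S_RATA) (hB : S_RATB)
    (hG : S_RGEN) (hD : S_P1D) : S_P1E := by
  intro f hf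
  obtain ⟨d, A, B, h1, h2, h3, h4⟩ := exists_ratio hG f
  have hA0 : A ≠ 0 := fun h => hf ((ratio_zero hA hP h4).mpr h)
  obtain ⟨E, hE1, hE2⟩ := hD d A h1 hA0
  obtain ⟨F, hF1, hF2⟩ := hD d B h2 h3
  refine ⟨E - F, ?_, ?_⟩
  · intro p
    have hp : (PI p.1).IsPrime := (hP 1).1 p.1
    obtain ⟨i, hi⟩ := (hP 1).2.2.1 p.1
    have hi2 : (X i ^ d : MvPolynomial (Fin 2) ℂ) ∉ PI p.1 := fun h => hi (hp.mem_of_pow_mem d h)
    obtain ⟨f1, g1⟩ := ratio hA hP d A (X i ^ d) h1 (X_pow_mem i d)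
      (pow_ne_zero _ (X_ne_zero i))
    obtain ⟨f2, g2⟩ := ratio hA hP d B (X i ^ d) h2 (X_pow_mem i d)
      (pow_ne_zero _ (X_ne_zero i))
    have e : f1 = f * f2 := by
      rw [ratio_eq hA hP g1 (ratio_mul hB h4 g2)]
      ring
    have hf2 : f2 ≠ 0 := fun h0 => h3 ((ratio_zero hA hP g2).mp h0)
    have e1 : E p = Scheme.ord f1 p.1 := hE2 p _ _ hi2 g1
    have e2 : F p = Scheme.ord f2 p.1 := hF2 p _ _ hi2 g2
    rw [Finsupp.sub_apply, e1, e2, e, Scheme.ord_mul hf hf2]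
    ring
  · have : E = (E - F) + F := by abel
    have h5 := deg_add (E - F) F
    rw [← this, hE1, hF1] at h5
    omega

end GMC
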