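import Pool.Agent.H30.GMC.StT

/-!
Binary forms: linear factors, homogeneous prime ideals of `ℂ[s, t]`.
-/

open AlgebraicGeometry CategoryTheory FCB MvPolynomial

namespace GMC.Bin

/-- The linear form vanishing at `v`. -/
noncomputable def lin (v : Fin 2 → ℂ) : MvPolynomial (Fin 2) ℂ := C (v 1) * X 0 - C (v 0) * X 1

theorem lin_mem (v : Fin 2 → ℂ) : lin v ∈ grd 1 1 := by
  have h : ∀ (z : ℂ) (i : Fin 2), (C z * X i : MvPolynomial (Fin 2) ℂ) ∈ grd 1 1 := by
    intro z i
    have := (isHomogeneous_C (Fin 2) z).mul (isHomogeneous_X ℂ i)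
    rwa [zero_add] at this
  exact Submodule.sub_mem _ (h _ _) (h _ _)

theorem eval_lin (v : Fin 2 → ℂ) : eval v (lin v) = 0 := by
  simp [lin, mul_comm]

theorem exists_ne (v : Fin 2 → ℂ) (hv : v ≠ 0) : ∃ i, v i ≠ 0 := Function.ne_iff.mp hv

theorem lin_ne (v : Fin 2 → ℂ) (hv : v ≠ 0) : lin v ≠ 0 := by
  intro h
  apply hv
  have h0 : eval ![1, 0] (lin v) = 0 := by rw [h]; simp
  have h1 : eval ![0, 1] (lin v) = 0 := by rw [h]; simp
  simp [lin] at h0 h1
  funext i
  fin_cases i
  · exact h1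
  · exact h0

/-- modulo the linear form the variables are proportional to `v`. -/
theorem mod_lin (v : Fin 2 → ℂ) (i j : Fin 2) :
    lin v ∣ (C (v j) * X i - C (v i) * X j : MvPolynomial (Fin 2) ℂ) := by
  fin_cases i <;> fin_cases j
  · simp
  · exact dvd_of_eq rfl
  · exact ⟨-1, by simp [lin]⟩
  · simp

theorem mod_form (v : Fin 2 → ℂ) (j : Fin 2) (d : ℕ) (A : MvPolynomial (Fin 2) ℂ)
    (hA : A ∈ grd 1 d) : lin v ∣ C (v j) ^ d * A - C (eval v A) * X j ^ d := by
  have hA' : A.IsHomogeneous d := hA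
  have key : ∀ m ∈ A.support, lin v ∣ C (v j) ^ d * monomial m (coeff m A) -
      C (eval v (monomial m (coeff m A))) * X j ^ d := by
    intro m hm
    have hd : m 0 + m 1 = d := by
      have := hA' (mem_support_iff.mp hm)
      rw [← this, Finsupp.weight_apply, Finsupp.sum_fintype _ _ (by simp)]
      simp [Fin.sum_univ_two]
    have e1 : monomial m (coeff m A) = C (coeff m A) * (X 0 ^ m 0 * X 1 ^ m 1) := by
      rw [monomial_eq, Finsupp.prod_fintype _ _ (by simp), Fin.prod_univ_two]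
    have e2 : eval v (monomial m (coeff m A)) = coeff m A * (v 0 ^ m 0 * v 1 ^ m 1) := by
      rw [e1]; simp
    have h0 : lin v ∣ (C (v j) * X 0) ^ m 0 - (C (v 0) * X j) ^ m 0 :=
      (mod_lin v 0 j).trans (sub_dvd_pow_sub_pow _ _ _)
    have h1 : lin v ∣ (C (v j) * X 1) ^ m 1 - (C (v 1) * X j) ^ m 1 :=
      (mod_lin v 1 j).trans (sub_dvd_pow_sub_pow _ _ _)
    have h2 : lin v ∣ (C (v j) * X 0) ^ m 0 * (C (v j) * X 1) ^ m 1 -
        (C (v 0) * X j) ^ m 0 * (C (v 1) * X j) ^ m 1 := by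
      have : (C (v j) * X 0) ^ m 0 * (C (v j) * X 1) ^ m 1 -
        (C (v 0) * X j) ^ m 0 * (C (v 1) * X j) ^ m 1 =
        ((C (v j) * X 0) ^ m 0 - (C (v 0) * X j) ^ m 0) * (C (v j) * X 1) ^ m 1 +
        (C (v 0) * X j) ^ m 0 * ((C (v j) * X 1) ^ m 1 - (C (v 1) * X j) ^ m 1) := by
        ring
      rw [this]
      exact dvd_add (Dvd.dvd.mul_right h0 _) (Dvd.dvd.mul_left h1 _)
    have h3 : C (v j) ^ d * monomial m (coeff m A) -
      C (eval v (monomial m (coeff m A))) * X j ^ d =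
      C (coeff m A) * ((C (v j) * X 0) ^ m 0 * (C (v j) * X 1) ^ m 1 -
        (C (v 0) * X j) ^ m 0 * (C (v 1) * X j) ^ m 1) := by
      rw [e2, e1, ← hd]
      simp only [map_mul, map_pow]
      ring
    rw [h3]
    exact Dvd.dvd.mul_left h2 _
  have h4 : C (v j) ^ d * A - C (eval v A) * X j ^ d = ∑ m ∈ A.support,
      (C (v j) ^ d * monomial m (coeff m A) -
        C (eval v (monomial m (coeff m A))) * X j ^ d) := by
    rw [Finset.sum_sub_distrib, ← Finset.mul_sum, ← Finset.sum_mul, ← map_sum, ← map_sum,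
      ← as_sum A]
  rw [h4]
  exact Finset.dvd_sum key

/-- a form which vanishes at `v` is a multiple of the linear form. -/
theorem dvd_of_eval (v : Fin 2 → ℂ) (hv : v ≠ 0) (d : ℕ) (A : MvPolynomial (Fin 2) ℂ)
    (hA : A ∈ grd 1 d) (h : eval v A = 0) : lin v ∣ A := by
  obtain ⟨j, hj⟩ := exists_ne v hv
  have h1 := mod_form v j d A hA
  rw [h, map_zero, zero_mul, sub_zero, ← map_pow] at h1
  have h2 : A = C ((v j ^ d)⁻¹) * (C (v j ^ d) * A) := by
    rw [← mul_assoc, ← map_mul, inv_mul_cancel₀ (pow_ne_zero _ hj), map_one, one_mul]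
  rw [h2]
  exact Dvd.dvd.mul_left h1 _

/-- homogeneous quotient. -/
theorem exists_quot (d : ℕ) (L A : MvPolynomial (Fin 2) ℂ) (hL : L ∈ grd 1 1)
    (hA : A ∈ grd 1 (d + 1)) (h : L ∣ A) : ∃ B ∈ grd 1 d, A = L * B := by
  obtain ⟨B, hB⟩ := h
  refine ⟨homogeneousComponent d B, homogeneousComponent_mem d B, ?_⟩
  have h1 : homogeneousComponent (d + 1) (L * B) = L * homogeneousComponent d B := by
    have h2 := DirectSum.coe_decompose_mul_of_left_mem_of_le (grd 1) (i := 1) (n := d + 1)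
      (a := L) (b := B) hL (by omega)
    have h3 : ∀ (k : ℕ) (P : MvPolynomial (Fin 2) ℂ),
        ((DirectSum.decompose (grd 1) P k : grd 1 k) : MvPolynomial (Fin 2) ℂ) =
          homogeneousComponent k P := by
      intro k P
      exact MvPolynomial.decomposition.decompose'_apply P k
    rw [h3, h3] at h2
    simpa using h2
  rw [← h1, ← hB]
  exact (homogeneousComponent_of_mem hA).symm ▸ by simp

/-- a form of positive degree has a zero. -/
theorem exists_zero (d : ℕ) (A : MvPolynomial (Fin 2) ℂ) (hA : A ∈ grd 1 (d + 1)) :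
    ∃ v : Fin 2 → ℂ, v ≠ 0 ∧ eval v A = 0 := by
  have hA' : A.IsHomogeneous (d + 1) := hA
  by_contra hcon
  push Not at hcon
  let P : Polynomial ℂ := aeval ![Polynomial.X, 1] A
  have hP : ∀ r : ℂ, P.eval r = eval ![r, 1] A := by
    intro r
    have : (Polynomial.evalRingHom r).comp ((aeval ![Polynomial.X, 1] :
        MvPolynomial (Fin 2) ℂ →ₐ[ℂ] Polynomial ℂ).toRingHom) = eval ![r, 1] := by
      ext i
      · simp
      · fin_cases i <;> simp
    exact DFunLike.congr_fun this A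
  have hdeg : P.degree = 0 := by
    by_contra h0
    obtain ⟨r, hr⟩ := IsAlgClosed.exists_root P h0
    refine hcon ![r, 1] ?_ ?_
    · intro h
      have := congrFun h 1
      simp at this
    · rw [← hP]; exact hr
  obtain ⟨c, hc⟩ : ∃ c, P = Polynomial.C c := ⟨_, Polynomial.eq_C_of_degree_eq_zero hdeg⟩
  let Q : Polynomial ℂ := aeval ![1, Polynomial.X] A
  have hQ : ∀ r : ℂ, Q.eval r = eval ![1, r] A := by
    intro r
    have : (Polynomial.evalRingHom r).comp ((aeval ![1, Polynomial.X] :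
        MvPolynomial (Fin 2) ℂ →ₐ[ℂ] Polynomial ℂ).toRingHom) = eval ![1, r] := by
      ext i
      · simp
      · fin_cases i <;> simp
    exact DFunLike.congr_fun this A
  have hQ2 : Q = Polynomial.C c * Polynomial.X ^ (d + 1) := by
    apply Polynomial.eq_of_infinite_eval_eq
    have hinf : (({0} : Set ℂ)ᶜ).Infinite := (Set.finite_singleton 0).infinite_compl
    refine hinf.mono ?_
    intro t ht
    have ht' : t ≠ 0 := ht
    show Q.eval t = (Polynomial.C c * Polynomial.X ^ (d + 1)).eval t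
    rw [hQ]
    have h1 : (![1, t] : Fin 2 → ℂ) = fun i => t * (![t⁻¹, 1] : Fin 2 → ℂ) i := by
      funext i
      fin_cases i
      · simp [ht']
      · simp
    obtain ⟨W, hW⟩ := mod_form ![t⁻¹, 1] 1 (d + 1) A hA
    have h2 := congrArg (eval ![1, t]) hW
    have h4 : eval ![1, t] (lin ![t⁻¹, 1]) = 0 := by
      simp [lin, ht']
    rw [map_mul, h4, zero_mul, ← hP, hc] at h2
    simp only [Polynomial.eval_C, map_sub, map_mul, map_pow, eval_C, eval_X,
      Matrix.cons_val_one, Matrix.cons_val_zero, one_pow, one_mul, Matrix.cons_val_fin_one] at h2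
    rw [Polynomial.eval_mul, Polynomial.eval_C, Polynomial.eval_pow, Polynomial.eval_X]
    exact sub_eq_zero.mp h2
  have h3 : eval ![1, 0] A = 0 := by
    rw [← hQ, hQ2]
    simp
  refine hcon ![1, 0] ?_ h3
  intro h
  have := congrFun h 0
  simp at this

end GMC.Bin
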